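import Mathlib

set_option autoImplicit false

namespace Pool.Agent.Results.MP_1d6438_gt.Counter

open Metric Set Filter Topology
open scoped Classical

/-- The Gromov-Hausdorff distance of arbitrary metric spaces. -/
noncomputable def dGH (X Y : Type) [MetricSpace X] [MetricSpace Y] : ENNReal :=
  ⨅ (Z : Type) (_ : MetricSpace Z) (Φ : X → Z) (Ψ : Y → Z) (_ : Isometry Φ) (_ : Isometry Ψ),
    hausdorffEDist (range Φ) (range Ψ)

@[ext] structure W (c : ℕ → ℕ → Prop) where
  i : ℕ
  k : ℕ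

variable {c : ℕ → ℕ → Prop}

instance : Nonempty (W c) := ⟨⟨0, 0⟩⟩

noncomputable def e (p q : W c) : ℝ :=
  if p.i = q.i ∧ min p.k q.k = 0 ∧ c p.i (max p.k q.k) then 1 / ((max p.k q.k : ℕ) + 2) else 0

lemma e0 (p q : W c) : 0 ≤ e p q := by unfold e; positivity

lemma e1 (p q : W c) : e p q < 1 := by
  unfold e
  split_ifs
  · rw [div_lt_one (by positivity)]; linarith [Nat.cast_nonneg (α := ℝ) (max p.k q.k)]
  · exact one_pos

noncomputable instance : MetricSpace (W c) where
  dist p q := if p = q then 0 else (max p.k q.k : ℕ) + 1 + e p q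
  dist_self p := if_pos rfl
  dist_comm p q := by
    by_cases h : p.i = q.i <;> simp [e, eq_comm, max_comm, min_comm, h, and_comm]
  dist_triangle p q r := by
    have := e0 p q; have := e0 q r; have := e1 p r
    have : ((max p.k r.k : ℕ) : ℝ) ≤ (max p.k q.k : ℕ) + (max q.k r.k : ℕ) := by
      norm_cast; omega
    split_ifs with a b d b d b <;> try subst_vars
    all_goals first | positivity | contradiction | linarith
  eq_of_dist_eq_zero {p q} h := by
    by_contra n
    have := e0 p q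
    rw [if_neg n] at h
    exact absurd h (by positivity)

lemma dd (p q : W c) : dist p q = if p = q then 0 else (max p.k q.k : ℕ) + 1 + e p q := rfl

/-- A metric space with closed discrete distance set that lacks the uniqueness property. -/
theorem result : ∃ (X Y : Type) (_ : MetricSpace X) (_ : MetricSpace Y), Nonempty X ∧ Nonempty Y ∧
    IsClosed {d : ℝ | ∃ x x' : X, dist x x' = d} ∧
    DiscreteTopology {d : ℝ | ∃ x x' : X, dist x x' = d} ∧
    dGH X Y = 0 ∧ IsEmpty (X ≃ᵢ Y) := by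
  refine ⟨W fun n k => n ≠ 0 ∧ n ≤ k + 1, W (· ≤ ·), inferInstance, inferInstance, ⟨⟨0, 0⟩⟩,
    ⟨⟨0, 0⟩⟩, ?_⟩
  rw [← and_assoc, ← isDiscrete_iff_discreteTopology, isClosed_and_discrete_iff]
  refine ⟨fun x => disjoint_principal_right.2 ?_, ?_, ⟨fun g => ?_⟩⟩
  · obtain ⟨N, hN⟩ := exists_nat_gt x
    have f : ((insert 0 ((fun k : ℕ => (k + 1 + 0 : ℝ)) '' Iio N ∪
        (fun k : ℕ => (k + 1 + 1 / (k + 2) : ℝ)) '' Iio N)) \ {x}).Finite :=
      (((finite_Iio N).image _).union ((finite_Iio N).image _)).insert _ |>.diff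
    filter_upwards [self_mem_nhdsWithin, mem_nhdsWithin_of_mem_nhds (Iio_mem_nhds hN),
      mem_nhdsWithin_of_mem_nhds (f.isClosed.isOpen_compl.mem_nhds (by simp))]
    rintro _ h1 h2 h3 ⟨p, q, rfl⟩
    refine h3 ⟨?_, h1⟩
    rw [mem_Iio, dd] at h2
    rw [dd]
    split_ifs at h2 ⊢
    · exact mem_insert _ _
    have : max p.k q.k < N := by
      have := e0 p q
      exact_mod_cast (by linarith : ((max p.k q.k : ℕ) : ℝ) < N)
    unfold e
    split_ifs
    exacts [.inr (.inr ⟨_, this, rfl⟩), .inr (.inl ⟨_, this, rfl⟩)]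
  · refine le_antisymm (ENNReal.le_of_forall_pos_le_add fun ε ε0 _ => ?_) bot_le
    obtain ⟨N, hN⟩ := exists_nat_one_div_lt (K := ℝ) (NNReal.coe_pos.2 ε0)
    let σ : W (fun n k => n ≠ 0 ∧ n ≤ k + 1) → W (· ≤ ·) := fun p =>
      ⟨if p.i = 0 then N else if p.i ≤ N then p.i - 1 else p.i, p.k⟩
    have s : ∀ p q, (σ p).i = (σ q).i ↔ p.i = q.i := fun p q => by
      simp only [σ]; split_ifs <;> omega
    have b : ∀ k : ℕ, N ≤ k → 1 / (k + 2 : ℝ) ≤ 2 * ε := fun k h => by
      have : (N : ℝ) ≤ k := by exact_mod_cast h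
      have := one_div_le_one_div_of_le (by positivity) (by linarith : (N + 1 : ℝ) ≤ k + 2)
      linarith [ε.coe_nonneg]
    letI := glueMetricApprox id σ ε ε0 fun p q => by
      have h : σ p = σ q ↔ p = q := by rw [W.ext_iff, W.ext_iff, s]
      simp only [id, dd, h]
      split_ifs
      · simp
      · rw [show ∀ a x y : ℝ, a + x - (a + y) = x - y from fun _ _ _ => by ring]
        simp only [e, s]
        rcases lt_or_ge (max p.k q.k) N with k | k
        · have : (p.i ≠ 0 ∧ p.i ≤ max p.k q.k + 1) ↔ (σ p).i ≤ max p.k q.k := by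
            simp only [σ]; split_ifs <;> omega
          simp [this, σ]
        · have := b _ k
          have : 0 ≤ 1 / ((max p.k q.k : ℕ) + 2 : ℝ) := by positivity
          simp only [σ]
          split_ifs <;> rw [abs_le] <;> constructor <;> linarith
    have t : ∀ p, edist (Sum.inl p : _ ⊕ _) (Sum.inr (σ p)) ≤ 0 + ε := fun p => by
      rw [edist_dist, show dist _ _ = _ from glueDist_glued_points id σ ε p]; simp
    refine iInf_le_of_le _ (iInf_le_of_le this (iInf_le_of_le Sum.inl (iInf_le_of_le Sum.inr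
      (iInf_le_of_le (Isometry.of_dist_eq fun _ _ => rfl) (iInf_le_of_le
      (Isometry.of_dist_eq fun _ _ => rfl) (hausdorffEDist_le_of_mem_edist ?_ ?_))))))
    · rintro _ ⟨p, rfl⟩
      exact ⟨_, ⟨_, rfl⟩, t p⟩
    · rintro _ ⟨q, rfl⟩
      obtain ⟨p, rfl⟩ : ∃ p, σ p = q :=
        ⟨⟨if q.i = N then 0 else if q.i < N then q.i + 1 else q.i, q.k⟩,
          W.ext (by simp only [σ]; split_ifs <;> first | omega | contradiction) rfl⟩
      exact ⟨_, ⟨p, rfl⟩, (edist_comm _ _).trans_le (t p)⟩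
  · have h := g.dist_eq ⟨0, 0⟩ ⟨1, 0⟩
    rw [dd, dd, if_neg (g.injective.ne (by simp))] at h
    have k : (g ⟨0, 0⟩).k = 0 := by
      have := e0 (g ⟨0, 0⟩) (g ⟨1, 0⟩)
      simp only [W.mk.injEq, zero_ne_one, false_and, if_false, e, max_self] at h this
      have : ((max (g ⟨0, 0⟩).k (g ⟨1, 0⟩).k : ℕ) : ℝ) ≤ (0 : ℕ) := by linarith
      norm_cast at this; omega
    obtain ⟨p, hp⟩ := g.surjective ⟨(g ⟨0, 0⟩).i, (g ⟨0, 0⟩).i + 1⟩
    have h := g.dist_eq ⟨0, 0⟩ p
    have n : g ⟨0, 0⟩ ≠ g p := fun h => by simpa [hp, k] using congrArg W.k h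
    rw [dd, dd, if_neg n, if_neg fun h => n (congrArg g h)] at h
    have a := e1 (g ⟨0, 0⟩) (g p)
    have b : 0 < e (g ⟨0, 0⟩) (g p) := by
      rw [e, if_pos (by simp [hp, k])]; positivity
    rw [show e ⟨0, 0⟩ p = 0 from if_neg (by simp)] at h
    generalize max (g ⟨0, 0⟩).k (g p).k = u at h
    generalize max (W.k ⟨0, 0⟩) p.k = v at h
    have : (u : ℝ) < v := by linarith
    have : (v : ℝ) < u + 1 := by linarith
    norm_cast at *; omega

end Pool.Agent.Results.MP_1d6438_gt.Counter
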